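import Pool.Agent.Helper67.LM.Defs

/-!
# Project LM, packet HOM
-/

set_option autoImplicit false

open MeasureTheory Set
open scoped ENNReal Pointwise
open Pool.Agent.Helper47.AQ

noncomputable section

namespace Pool.Agent.Helper86.LM

open Pool.Agent.Helper67.LM

variable {ι : Type} [Fintype ι]

theorem cub_scale [Nonempty ι] (t : ℝ) (ht : 0 < t) (u : ι → ℝ) :
    t • u ∈ P ι ∩ {u | ‖u‖ < t} ↔ u ∈ cub ι := by
  have h1 : ‖t • u‖ < t ↔ ‖u‖ < 1 := by
    rw [norm_smul, Real.norm_eq_abs, abs_of_pos ht]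
    constructor
    · intro h
      exact lt_of_mul_lt_mul_left (by linarith) ht.le
    · intro h
      nlinarith
  rw [mem_inter_iff, mem_ofPred_eq, h1, pi_norm_lt_iff one_pos]
  simp only [P, cub, mem_ofPred_eq, Pi.smul_apply, smul_eq_mul, mul_pos_iff_of_pos_left ht,
    Real.norm_eq_abs, abs_lt]
  constructor
  · rintro ⟨h2, h3⟩ i
    exact ⟨h2 i, (h3 i).2⟩
  · intro h
    exact ⟨fun i => (h i).1, fun i => ⟨by linarith [(h i).1], (h i).2⟩⟩

theorem lint_scale [Nonempty ι] (h : (ι → ℝ) → ℝ≥0∞) (hm : Measurable h)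
    (hh : ∀ t : ℝ, 0 < t → ∀ u, h (t • u) = ENNReal.ofReal t * h u) (t : ℝ) (ht : 0 < t) :
    ∫⁻ u in P ι ∩ {u | ‖u‖ < t}, h u =
      ENNReal.ofReal (t ^ (Fintype.card ι + 1)) * ∫⁻ u in cub ι, h u := by
  have hms : MeasurableSet (P ι ∩ {u : ι → ℝ | ‖u‖ < t}) :=
    measurableSet_P.inter (measurableSet_lt measurable_norm measurable_const)
  have hcm : MeasurableSet (cub ι) := by
    have h1 : cub ι = (fun u : ι → ℝ => t • u) ⁻¹' (P ι ∩ {u : ι → ℝ | ‖u‖ < t}) := by
      ext u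
      rw [mem_preimage, cub_scale t ht]
    rw [h1]
    exact (measurable_const_smul t) hms
  have hmap := Measure.map_addHaar_smul (volume : Measure (ι → ℝ)) ht.ne'
  rw [Module.finrank_fintype_fun_eq_card] at hmap
  have e1 : ∫⁻ u, (P ι ∩ {u : ι → ℝ | ‖u‖ < t}).indicator h u
      ∂(Measure.map (fun x : ι → ℝ => t • x) volume) =
      ENNReal.ofReal t * ∫⁻ u in cub ι, h u := by
    rw [lintegral_map (hm.indicator hms) (measurable_const_smul t), ← lintegral_indicator hcm,
      ← lintegral_const_mul _ (hm.indicator hcm)]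
    refine lintegral_congr fun u => ?_
    by_cases hu : u ∈ cub ι
    · rw [indicator_of_mem hu, indicator_of_mem ((cub_scale t ht u).2 hu), hh t ht]
    · rw [indicator_of_notMem hu, indicator_of_notMem (fun h => hu ((cub_scale t ht u).1 h)),
        mul_zero]
  have hmap' : Measure.map (fun x : ι → ℝ => t • x) volume =
      ENNReal.ofReal |(t ^ Fintype.card ι)⁻¹| • volume := hmap
  rw [hmap', lintegral_smul_measure, lintegral_indicator hms] at e1
  have hpos : 0 < t ^ Fintype.card ι := pow_pos ht _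
  rw [abs_of_pos (inv_pos.2 hpos)] at e1
  have e2 : ENNReal.ofReal (t ^ Fintype.card ι) * (ENNReal.ofReal (t ^ Fintype.card ι)⁻¹ •
      ∫⁻ u in P ι ∩ {u : ι → ℝ | ‖u‖ < t}, h u) = ∫⁻ u in P ι ∩ {u : ι → ℝ | ‖u‖ < t}, h u := by
    rw [smul_eq_mul, ← mul_assoc, ← ENNReal.ofReal_mul hpos.le, mul_inv_cancel₀ hpos.ne',
      ENNReal.ofReal_one, one_mul]
  rw [← e2, e1, ← mul_assoc, ← ENNReal.ofReal_mul hpos.le, pow_succ]

theorem hom [DecidableEq ι] [Nonempty ι] (h : (ι → ℝ) → ℝ≥0∞) (hm : Measurable h)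
    (hh : ∀ t : ℝ, 0 < t → ∀ u, h (t • u) = ENNReal.ofReal t * h u) :
    ∫⁻ u in P ι, ENNReal.ofReal (Real.exp (-‖u‖)) * h u =
      ((Fintype.card ι + 1).factorial : ℝ≥0∞) * ∫⁻ u in cub ι, h u := by
  have h1 : ∀ x : ι → ℝ, ENNReal.ofReal (Real.exp (-‖x‖)) * h x =
      ∫⁻ t in Ioi (0 : ℝ), (Ioi ‖x‖).indicator
        (fun t => ENNReal.ofReal (Real.exp (-t)) * h x) t := by
    intro x
    rw [setLIntegral_indicator measurableSet_Ioi,
      inter_eq_self_of_subset_left (Ioi_subset_Ioi (norm_nonneg x)),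
      lintegral_mul_const _ (by fun_prop), restrict_Ioi_eq_restrict_Ici, lint_exp]
  simp_rw [h1]
  rw [lintegral_lintegral_swap]
  · have h2 : ∀ t ∈ Ioi (0 : ℝ), ∫⁻ x in P ι, (Ioi ‖x‖).indicator
        (fun t => ENNReal.ofReal (Real.exp (-t)) * h x) t =
        ENNReal.ofReal (Real.exp (-t) * t ^ (Fintype.card ι + 1)) * ∫⁻ u in cub ι, h u := by
      intro t ht
      have h3 : ∀ x : ι → ℝ, (Ioi ‖x‖).indicator
          (fun t => ENNReal.ofReal (Real.exp (-t)) * h x) t =
          {x : ι → ℝ | ‖x‖ < t}.indicator (fun x => ENNReal.ofReal (Real.exp (-t)) * h x) x := by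
        intro x
        by_cases hx : ‖x‖ < t
        · rw [indicator_of_mem (s := Ioi ‖x‖) hx,
            indicator_of_mem (s := {x : ι → ℝ | ‖x‖ < t}) hx]
        · rw [indicator_of_notMem (s := Ioi ‖x‖) hx,
            indicator_of_notMem (s := {x : ι → ℝ | ‖x‖ < t}) hx]
      simp_rw [h3]
      have hms : MeasurableSet {x : ι → ℝ | ‖x‖ < t} :=
        measurableSet_lt measurable_norm measurable_const
      rw [lintegral_indicator hms, Measure.restrict_restrict hms, lintegral_const_mul _ hm,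
        inter_comm, lint_scale h hm hh t ht, ← mul_assoc, ← ENNReal.ofReal_mul (Real.exp_pos _).le]
    rw [setLIntegral_congr_fun measurableSet_Ioi h2, lintegral_mul_const, lint_gamma]
    fun_prop
  · have hms : MeasurableSet {z : (ι → ℝ) × ℝ | ‖z.1‖ < z.2} :=
      measurableSet_lt (measurable_norm.comp measurable_fst) measurable_snd
    have h4 : (Function.uncurry fun (x : ι → ℝ) (t : ℝ) =>
        (Ioi ‖x‖).indicator (fun t => ENNReal.ofReal (Real.exp (-t)) * h x) t) =
        {z : (ι → ℝ) × ℝ | ‖z.1‖ < z.2}.indicator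
          (fun z => ENNReal.ofReal (Real.exp (-z.2)) * h z.1) := by
      funext z
      simp only [Function.uncurry]
      by_cases hz : ‖z.1‖ < z.2
      · rw [indicator_of_mem (s := Ioi ‖z.1‖) hz,
          indicator_of_mem (s := {z : (ι → ℝ) × ℝ | ‖z.1‖ < z.2}) hz]
      · rw [indicator_of_notMem (s := Ioi ‖z.1‖) hz,
          indicator_of_notMem (s := {z : (ι → ℝ) × ℝ | ‖z.1‖ < z.2}) hz]
    rw [h4]
    refine (Measurable.indicator ?_ hms).aemeasurable
    exact Measurable.mul (by fun_prop) (hm.comp measurable_fst)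

end Pool.Agent.Helper86.LM
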